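import Pool.Agent.N202.M4.Stm

/-!
# Invariance of the Hasse invariant (`S_HAS`)
-/

set_option autoImplicit false
set_option linter.unusedSectionVars false

namespace Pool.Agent.N424.M4

open Pool.Agent.N202.M4

section Symbol

variable {F : Type} [Field F] {h : F → F → ℤ}

theorem sq_one (hs : IsSymbol h) (a b : F) : h a b * h a b = 1 := by
  rcases hs.pm a b with h1 | h1 <;> rw [h1] <;> norm_num

theorem h_one (hs : IsSymbol h) {a : F} (ha : a ≠ 0) : h a 1 = 1 := by
  have h1 := hs.mul a 1 1 ha one_ne_zero one_ne_zero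
  rw [mul_one, sq_one hs] at h1
  exact h1

theorem h_sq (hs : IsSymbol h) {a b c : F} (ha : a ≠ 0) (hb : b ≠ 0) (hc : c ≠ 0) :
    h a (b * c ^ 2) = h a b := by
  rw [hs.mul a b (c ^ 2) ha hb (pow_ne_zero 2 hc), sq, hs.mul a c c ha hc hc, sq_one hs, mul_one]

theorem h_prod (hs : IsSymbol h) {a : F} (ha : a ≠ 0) (l : List F) (hl : ∀ x ∈ l, x ≠ 0) :
    (l.map (h a)).prod = h a l.prod := by
  induction l with
  | nil => simp [h_one hs ha]
  | cons x l ih =>
    rw [List.map_cons, List.prod_cons, List.prod_cons, ih fun y hy => hl y (by simp [hy]),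
      hs.mul a x l.prod ha (hl x (by simp))]
    intro h0
    rw [List.prod_eq_zero_iff] at h0
    exact hl 0 (by simp [h0]) rfl

theorem hasse_perm (hs : IsSymbol h) {l l' : List F} (p : l.Perm l') :
    hasse h l = hasse h l' := by
  induction p with
  | nil => rfl
  | cons x p ih =>
    rw [hasse, hasse, ih, (p.map (h x)).prod_eq]
  | swap x y l =>
    simp only [hasse, List.map_cons, List.prod_cons]
    rw [hs.symm x y]
    ring
  | trans p q ih1 ih2 => exact ih1.trans ih2

theorem hasse_scale (hs : IsSymbol h) {a c : F} (ha : a ≠ 0) (hc : c ≠ 0) (l : List F)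
    (hl : ∀ x ∈ l, x ≠ 0) : hasse h (a * c ^ 2 :: l) = hasse h (a :: l) := by
  rw [hasse, hasse]
  congr 2
  refine List.map_congr_left fun x hx => ?_
  rw [hs.symm, h_sq hs (hl x hx) ha hc, hs.symm]

theorem h_plane (hs : IsSymbol h) {a b c x y : F} (ha : a ≠ 0) (hb : b ≠ 0) (hc : c ≠ 0)
    (e : c = a * x ^ 2 + b * y ^ 2) : h c (a * b * c) = h a b := by
  have h1 : h (a * c) (b * c) = 1 := by
    refine hs.one (a * c) (b * c) (x / c) (y / c) (mul_ne_zero ha hc) (mul_ne_zero hb hc) ?_
    field_simp
    rw [← e]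
  rw [hs.mul (a * c) b c (mul_ne_zero ha hc) hb hc, hs.symm (a * c) b, hs.symm (a * c) c,
    hs.mul b a c hb ha hc, hs.mul c a c hc ha hc] at h1
  rw [hs.mul c (a * b) c hc (mul_ne_zero ha hb) hc, hs.mul c a b hc ha hb]
  have h2 := sq_one hs b a
  have h3 := hs.symm b c
  have h4 := hs.symm a b
  calc h c a * h c b * h c c = (h b a * h b a) * (h c a * h b c * h c c) := by rw [h2, h3]; ring
    _ = h b a * (h b a * h b c * (h c a * h c c)) := by ring
    _ = h a b := by rw [h1, h4]; ring

theorem hasse_plane (hs : IsSymbol h) {a b c x y : F} (ha : a ≠ 0) (hb : b ≠ 0) (hc : c ≠ 0)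
    (e : c = a * x ^ 2 + b * y ^ 2) (l : List F) (hl : ∀ x ∈ l, x ≠ 0) :
    hasse h (c :: (a * b * c) :: l) = hasse h (a :: b :: l) := by
  simp only [hasse, List.map_cons, List.prod_cons]
  rw [h_plane hs ha hb hc e]
  have hP : l.prod ≠ 0 := by
    intro h0
    rw [List.prod_eq_zero_iff] at h0
    exact hl 0 h0 rfl
  rw [h_prod hs hc l hl, h_prod hs (mul_ne_zero (mul_ne_zero ha hb) hc) l hl, h_prod hs ha l hl,
    h_prod hs hb l hl, hs.symm (a * b * c), hs.mul l.prod (a * b) c hP (mul_ne_zero ha hb) hc,
    hs.mul l.prod a b hP ha hb, hs.symm c, hs.symm a l.prod, hs.symm b l.prod]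
  have h2 := sq_one hs l.prod c
  calc h a b * h l.prod c * (h l.prod a * h l.prod b * h l.prod c * hasse h l)
      = h a b * h l.prod a * (h l.prod b * hasse h l) * (h l.prod c * h l.prod c) := by ring
    _ = _ := by rw [h2, mul_one]

end Symbol

section Vector

variable {F : Type} [Field F] [CharZero F] {h : F → F → ℤ} {V : Type} [AddCommGroup V] [Module F V]
  {B : V →ₗ[F] V →ₗ[F] F}

/-- orthogonal anisotropic lists -/
def OA (B : V →ₗ[F] V →ₗ[F] F) (E : List V) : Prop :=
  E.Pairwise (fun x y => B x y = 0) ∧ ∀ x ∈ E, B x x ≠ 0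

/-- the span -/
def sp (F : Type) [Field F] {V : Type} [AddCommGroup V] [Module F V] (E : List V) :
    Submodule F V := Submodule.span F {x | x ∈ E}

/-- values -/
def vl (B : V →ₗ[F] V →ₗ[F] F) (E : List V) : List F := E.map fun x => B x x

theorem sp_cons (a : V) (E : List V) : sp F (a :: E) = Submodule.span F (insert a {x | x ∈ E}) := by
  unfold sp
  congr 1
  ext x
  simp

theorem mem_sp_cons {a f : V} {E : List V} : f ∈ sp F (a :: E) ↔ ∃ c : F, ∃ g ∈ sp F E,
    f = c • a + g := by
  rw [sp_cons, Submodule.mem_span_insert]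
  rfl

theorem sp_perm {E E' : List V} (p : E.Perm E') : sp F E = sp F E' := by
  unfold sp
  congr 1
  ext x
  exact p.mem_iff

theorem OA.perm (hB : ∀ x y, B x y = B y x) {E E' : List V} (p : E.Perm E') (hE : OA B E) :
    OA B E' := by
  refine ⟨(p.pairwise_iff ?_).1 hE.1, fun x hx => hE.2 x (p.mem_iff.2 hx)⟩
  intro x y hxy
  rw [hB]
  exact hxy

theorem vl_perm {E E' : List V} (p : E.Perm E') : (vl B E).Perm (vl B E') := p.map _

theorem OA.tail {a : V} {E : List V} (hE : OA B (a :: E)) : OA B E :=
  ⟨(List.pairwise_cons.1 hE.1).2, fun x hx => hE.2 x (by simp [hx])⟩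

theorem OA.vl_ne {E : List V} (hE : OA B E) : ∀ x ∈ vl B E, x ≠ 0 := by
  intro x hx
  obtain ⟨y, hy, rfl⟩ := List.mem_map.1 hx
  exact hE.2 y hy

/-- orthogonality to a span -/
theorem orth_sp {f : V} {E : List V} (hf : ∀ e ∈ E, B f e = 0) : ∀ g ∈ sp F E, B f g = 0 := by
  intro g hg
  have : sp F E ≤ LinearMap.ker (B f) := by
    unfold sp
    rw [Submodule.span_le]
    intro e he
    exact LinearMap.mem_ker.2 (hf e he)
  exact LinearMap.mem_ker.1 (this hg)

/-- expansion in an orthogonal basis -/
theorem expand (hB : ∀ x y, B x y = B y x) : ∀ (E : List V), OA B E → ∀ f ∈ sp F E,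
    f = (E.map fun e => (B f e / B e e) • e).sum := by
  intro E
  induction E with
  | nil =>
    intro _ f hf
    have : sp F ([] : List V) = ⊥ := by
      unfold sp
      simp
    rw [this, Submodule.mem_bot] at hf
    simp [hf]
  | cons a E ih =>
    intro hE f hf
    obtain ⟨c, g, hg, rfl⟩ := mem_sp_cons.1 hf
    have h1 : ∀ e ∈ E, B a e = 0 := (List.pairwise_cons.1 hE.1).1
    have h2 : B a g = 0 := orth_sp h1 g hg
    have h3 : B (c • a + g) a = c * B a a := by
      rw [map_add, LinearMap.add_apply, map_smul, LinearMap.smul_apply, hB g a, h2, add_zero,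
        smul_eq_mul]
    have h4 : B a a ≠ 0 := hE.2 a (by simp)
    have h5 : (E.map fun e => (B (c • a + g) e / B e e) • e) =
        E.map fun e => (B g e / B e e) • e := by
      refine List.map_congr_left fun e he => ?_
      rw [map_add, LinearMap.add_apply, map_smul, LinearMap.smul_apply, h1 e he, smul_zero,
        zero_add]
    rw [List.map_cons, List.sum_cons, h5, ← ih hE.tail g hg, h3, mul_div_cancel_right₀ _ h4]

/-- the conclusion of the key lemma -/
def Good (h : F → F → ℤ) (B : V →ₗ[F] V →ₗ[F] F) (f : V) (E : List V) : Prop :=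
  ∃ E' : List V, OA B (f :: E') ∧ sp F (f :: E') = sp F E ∧
    hasse h (vl B (f :: E')) = hasse h (vl B E) ∧
    ∃ s : F, s ≠ 0 ∧ (vl B (f :: E')).prod = (vl B E).prod * s ^ 2

theorem Good.of_perm (hs : IsSymbol h) {f : V} {E E' : List V} (p : E.Perm E')
    (hG : Good h B f E') : Good h B f E := by
  obtain ⟨L, h1, h2, h3, s, h4, h5⟩ := hG
  refine ⟨L, h1, h2.trans (sp_perm p).symm, h3.trans (hasse_perm hs (vl_perm p)).symm, s, h4, ?_⟩
  rw [h5, (vl_perm (B := B) p).prod_eq]

theorem vl_cons (a : V) (E : List V) : vl B (a :: E) = B a a :: vl B E := rfl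

/-- one plane move -/
theorem plane_move (hs : IsSymbol h) (hB : ∀ x y, B x y = B y x) {e e' f : V} {R : List V}
    (hE : OA B (e :: e' :: R)) (h1 : B f e ≠ 0) (h2 : B f e' ≠ 0)
    (h3 : (B f e) ^ 2 / B e e + (B f e') ^ 2 / B e' e' ≠ 0) :
    ∃ u v : V, OA B (u :: v :: R) ∧ sp F (u :: v :: R) = sp F (e :: e' :: R) ∧
      hasse h (vl B (u :: v :: R)) = hasse h (vl B (e :: e' :: R)) ∧
      (∃ s : F, s ≠ 0 ∧ (vl B (u :: v :: R)).prod = (vl B (e :: e' :: R)).prod * s ^ 2) ∧
      B f v = 0 := by
  have ha : B e e ≠ 0 := hE.2 e (by simp)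
  have hb : B e' e' ≠ 0 := hE.2 e' (by simp)
  set a := B e e with hadef
  set b := B e' e' with hbdef
  set x := B f e / a with hx
  set y := B f e' / b with hy
  have hx0 : x ≠ 0 := div_ne_zero h1 ha
  have hy0 : y ≠ 0 := div_ne_zero h2 hb
  have hfe : B f e = a * x := by rw [hx]; field_simp
  have hfe' : B f e' = b * y := by rw [hy]; field_simp
  set c := a * x ^ 2 + b * y ^ 2 with hcdef
  have hc : c ≠ 0 := by
    have : c = (B f e) ^ 2 / a + (B f e') ^ 2 / b := by
      rw [hfe, hfe', hcdef]
      field_simp
    rw [this]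
    exact h3
  have hee' : B e e' = 0 := (List.pairwise_cons.1 hE.1).1 e' (by simp)
  have he'e : B e' e = 0 := by rw [hB]; exact hee'
  have heR : ∀ r ∈ R, B e r = 0 := fun r hr => (List.pairwise_cons.1 hE.1).1 r (by simp [hr])
  have he'R : ∀ r ∈ R, B e' r = 0 := (List.pairwise_cons.1 (List.pairwise_cons.1 hE.1).2).1
  set u := x • e + y • e' with hu
  set v := (b * y) • e - (a * x) • e' with hv
  have huu : B u u = c := by
    simp only [hu, map_add, map_smul, LinearMap.add_apply, LinearMap.smul_apply, smul_eq_mul, hee',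
      he'e, ← hadef, ← hbdef]
    rw [hcdef]
    ring
  have hvv : B v v = a * b * c := by
    simp only [hv, map_sub, map_smul, LinearMap.sub_apply, LinearMap.smul_apply, smul_eq_mul, hee',
      he'e, ← hadef, ← hbdef]
    rw [hcdef]
    ring
  have huv : B u v = 0 := by
    simp only [hu, hv, map_add, map_sub, map_smul, LinearMap.add_apply, LinearMap.smul_apply,
      smul_eq_mul, hee', he'e, ← hadef, ← hbdef]
    ring
  have hfv : B f v = 0 := by
    simp only [hv, map_sub, map_smul, smul_eq_mul, hfe, hfe']
    ring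
  have hOR : OA B R := hE.tail.tail
  refine ⟨u, v, ⟨?_, ?_⟩, ?_, ?_, ⟨c, hc, ?_⟩, hfv⟩
  · rw [List.pairwise_cons, List.pairwise_cons]
    refine ⟨?_, ?_, hOR.1⟩
    · intro r hr
      rw [List.mem_cons] at hr
      rcases hr with rfl | hr
      · exact huv
      · simp [hu, heR r hr, he'R r hr]
    · intro r hr
      simp [hv, heR r hr, he'R r hr]
  · intro r hr
    rw [List.mem_cons, List.mem_cons] at hr
    rcases hr with rfl | rfl | hr
    · rw [huu]; exact hc
    · rw [hvv]; exact mul_ne_zero (mul_ne_zero ha hb) hc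
    · exact hOR.2 r hr
  · apply le_antisymm
    · unfold sp
      rw [Submodule.span_le]
      have m1 : e ∈ Submodule.span F {z | z ∈ e :: e' :: R} :=
        Submodule.subset_span (by simp)
      have m2 : e' ∈ Submodule.span F {z | z ∈ e :: e' :: R} :=
        Submodule.subset_span (by simp)
      intro r hr
      simp only [Set.mem_ofPred_eq, List.mem_cons] at hr
      rcases hr with rfl | rfl | hr
      · exact add_mem (Submodule.smul_mem _ _ m1) (Submodule.smul_mem _ _ m2)
      · exact sub_mem (Submodule.smul_mem _ _ m1) (Submodule.smul_mem _ _ m2)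
      · exact Submodule.subset_span (by simp [hr])
    · unfold sp
      rw [Submodule.span_le]
      have m1 : u ∈ Submodule.span F {z | z ∈ u :: v :: R} :=
        Submodule.subset_span (by simp)
      have m2 : v ∈ Submodule.span F {z | z ∈ u :: v :: R} :=
        Submodule.subset_span (by simp)
      have e1 : e = (a * x / c) • u + (y / c) • v := by
        rw [hu, hv, smul_add, smul_sub, smul_smul, smul_smul, smul_smul, smul_smul]
        have i1 : a * x / c * x + y / c * (b * y) = 1 := by
          field_simp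
          rw [hcdef]
          ring
        have i2 : a * x / c * y - y / c * (a * x) = 0 := by
          field_simp
          ring
        calc e = (a * x / c * x + y / c * (b * y)) • e + (a * x / c * y - y / c * (a * x)) • e' := by
              rw [i1, i2]; simp
          _ = _ := by rw [add_smul, sub_smul]; abel
      have e2 : e' = (b * y / c) • u - (x / c) • v := by
        rw [hu, hv, smul_add, smul_sub, smul_smul, smul_smul, smul_smul, smul_smul]
        have i1 : b * y / c * y + x / c * (a * x) = 1 := by
          field_simp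
          rw [hcdef]
          ring
        have i2 : b * y / c * x - x / c * (b * y) = 0 := by
          field_simp
          ring
        calc e' = (b * y / c * x - x / c * (b * y)) • e + (b * y / c * y + x / c * (a * x)) • e' := by
              rw [i1, i2]; simp
          _ = _ := by rw [add_smul, sub_smul]; abel
      intro r hr
      simp only [Set.mem_ofPred_eq, List.mem_cons] at hr
      rcases hr with rfl | rfl | hr
      · rw [SetLike.mem_coe, e1]
        exact add_mem (Submodule.smul_mem _ _ m1) (Submodule.smul_mem _ _ m2)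
      · rw [SetLike.mem_coe, e2]
        exact sub_mem (Submodule.smul_mem _ _ m1) (Submodule.smul_mem _ _ m2)
      · exact Submodule.subset_span (by simp [hr])
  · rw [vl_cons, vl_cons, vl_cons, vl_cons, huu, hvv]
    exact hasse_plane hs ha hb hc hcdef _ hOR.vl_ne
  · rw [vl_cons, vl_cons, vl_cons, vl_cons, huu, hvv]
    simp only [List.prod_cons, ← hadef, ← hbdef]
    ring

/-- the value of `B f f` -/
theorem expand_val (hB : ∀ x y, B x y = B y x) (E : List V) (hE : OA B E) (f : V)
    (hf : f ∈ sp F E) : B f f = (E.map fun e => (B f e) ^ 2 / B e e).sum := by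
  have h1 := expand hB E hE f hf
  calc B f f = B f (E.map fun e => (B f e / B e e) • e).sum := by rw [← h1]
    _ = _ := by
      rw [map_list_sum, List.map_map]
      congr 1
      refine List.map_congr_left fun e _ => ?_
      simp only [Function.comp_apply, map_smul, smul_eq_mul]
      ring

open Classical in
/-- the number of nonzero coordinates -/
noncomputable def cnt (B : V →ₗ[F] V →ₗ[F] F) (f : V) (E : List V) : ℕ :=
  (E.filter fun e => decide (B f e ≠ 0)).length

theorem cnt_perm (f : V) {E E' : List V} (p : E.Perm E') : cnt B f E = cnt B f E' := by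
  unfold cnt
  exact (p.filter _).length_eq

theorem cnt_cons_ne (f e : V) (E : List V) (he : B f e ≠ 0) : cnt B f (e :: E) = cnt B f E + 1 := by
  unfold cnt
  rw [List.filter_cons_of_pos (by simpa using he), List.length_cons]

theorem cnt_cons_eq (f e : V) (E : List V) (he : B f e = 0) : cnt B f (e :: E) = cnt B f E := by
  unfold cnt
  rw [List.filter_cons_of_neg (by simpa using he)]

theorem cnt_cons_le (f e : V) (E : List V) : cnt B f (e :: E) ≤ cnt B f E + 1 := by
  by_cases he : B f e = 0
  · rw [cnt_cons_eq f e E he]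
    omega
  · rw [cnt_cons_ne f e E he]

/-- one step of the induction -/
theorem step (hs : IsSymbol h) (hB : ∀ x y, B x y = B y x) {k : ℕ} {f : V}
    (ih : ∀ E : List V, OA B E → f ∈ sp F E → cnt B f E ≤ k → Good h B f E)
    {E R : List V} {e e' : V} (p : E.Perm (e :: e' :: R)) (hE : OA B E) (hf : f ∈ sp F E)
    (hc : cnt B f E ≤ k + 1) (h1 : B f e ≠ 0) (h2 : B f e' ≠ 0)
    (h3 : (B f e) ^ 2 / B e e + (B f e') ^ 2 / B e' e' ≠ 0) : Good h B f E := by
  refine Good.of_perm hs p ?_
  rw [cnt_perm f p, cnt_cons_ne f e _ h1, cnt_cons_ne f e' _ h2] at hc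
  obtain ⟨u, v, k1, k2, k3, ⟨s, k4, k5⟩, k6⟩ := plane_move hs hB (hE.perm hB p) h1 h2 h3
  have hf2 : f ∈ sp F (u :: v :: R) := by
    rw [k2, ← sp_perm p]
    exact hf
  have hc2 : cnt B f (u :: v :: R) ≤ k := by
    have := cnt_cons_le (B := B) f u (v :: R)
    rw [cnt_cons_eq f v R k6] at this
    omega
  obtain ⟨L, m1, m2, m3, t, m4, m5⟩ := ih _ k1 hf2 hc2
  refine ⟨L, m1, m2.trans k2, m3.trans k3, s * t, mul_ne_zero k4 m4, ?_⟩
  rw [m5, k5]
  ring

theorem key (hs : IsSymbol h) (hB : ∀ x y, B x y = B y x) {f : V} (hff : B f f ≠ 0) :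
    ∀ (k : ℕ) (E : List V), OA B E → f ∈ sp F E → cnt B f E ≤ k → Good h B f E := by
  classical
  intro k
  induction k with
  | zero =>
    intro E hE hf hc
    exfalso
    apply hff
    refine orth_sp (fun e he => ?_) f hf
    by_contra h0
    have h1 : (E.filter fun e => decide (B f e ≠ 0)) = [] := by
      rw [← List.length_eq_zero_iff]
      unfold cnt at hc
      omega
    have h2 : e ∈ E.filter fun e => decide (B f e ≠ 0) := by
      rw [List.mem_filter]
      exact ⟨he, by simpa using h0⟩
    rw [h1] at h2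
    simp at h2
  | succ k ih =>
    intro E hE hf hc
    have hperm := List.filter_append_perm (fun e => decide (B f e ≠ 0)) E
    have hL1 : ∀ e ∈ E.filter (fun e => decide (B f e ≠ 0)), B f e ≠ 0 := by
      intro e he
      simpa using (List.mem_filter.1 he).2
    have hL2 : ∀ e ∈ E.filter (fun x => !decide (B f x ≠ 0)), B f e = 0 := by
      intro e he
      simpa using (List.mem_filter.1 he).2
    generalize E.filter (fun e => decide (B f e ≠ 0)) = L1 at hperm hL1
    generalize E.filter (fun x => !decide (B f x ≠ 0)) = L2 at hperm hL2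
    match L1, hperm, hL1 with
    | [], hperm, hL1 =>
      exfalso
      apply hff
      refine orth_sp (fun e he => ?_) f hf
      exact hL2 e (by simpa using hperm.mem_iff.2 he)
    | [e], hperm, hL1 =>
      have p : E.Perm (e :: L2) := hperm.symm
      refine Good.of_perm hs p ?_
      have hE' : OA B (e :: L2) := hE.perm hB p
      have hf' : f ∈ sp F (e :: L2) := by rw [← sp_perm p]; exact hf
      have h1 : B f e ≠ 0 := hL1 e (by simp)
      have h2 : B e e ≠ 0 := hE'.2 e (by simp)
      set c := B f e / B e e with hc'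
      have hc0 : c ≠ 0 := div_ne_zero h1 h2
      have h3 : f = c • e := by
        have h4 := expand hB _ hE' f hf'
        rw [List.map_cons, List.sum_cons] at h4
        have h5 : (L2.map fun e => (B f e / B e e) • e).sum = 0 := by
          refine List.sum_eq_zero fun y hy => ?_
          obtain ⟨z, hz, rfl⟩ := List.mem_map.1 hy
          rw [hL2 z hz, zero_div, zero_smul]
        rw [h5, add_zero] at h4
        exact h4
      have h6 : B f f = B e e * c ^ 2 := by
        rw [h3]
        simp only [map_smul, LinearMap.smul_apply, smul_eq_mul]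
        ring
      refine ⟨L2, ⟨?_, ?_⟩, ?_, ?_, c, hc0, ?_⟩
      · rw [List.pairwise_cons]
        exact ⟨hL2, hE'.tail.1⟩
      · intro x hx
        rw [List.mem_cons] at hx
        rcases hx with rfl | hx
        · exact hff
        · exact hE'.tail.2 x hx
      · apply le_antisymm
        · unfold sp
          rw [Submodule.span_le]
          intro r hr
          simp only [Set.mem_ofPred_eq, List.mem_cons] at hr
          rcases hr with hr | hr
          · rw [hr, h3]
            exact Submodule.smul_mem _ _ (Submodule.subset_span (by simp))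
          · exact Submodule.subset_span (by simp [hr])
        · unfold sp
          rw [Submodule.span_le]
          intro r hr
          simp only [Set.mem_ofPred_eq, List.mem_cons] at hr
          rcases hr with hr | hr
          · have : r = c⁻¹ • f := by rw [hr, h3, smul_smul, inv_mul_cancel₀ hc0, one_smul]
            rw [this]
            exact Submodule.smul_mem _ _ (Submodule.subset_span (by simp))
          · exact Submodule.subset_span (by simp [hr])
      · rw [vl_cons, vl_cons, h6]
        exact hasse_scale hs h2 hc0 _ hE'.tail.vl_ne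
      · rw [vl_cons, vl_cons, h6, List.prod_cons, List.prod_cons]
        ring
    | e1 :: e2 :: L, hperm, hL1 =>
      have q1 : B f e1 ≠ 0 := hL1 e1 (by simp)
      have q2 : B f e2 ≠ 0 := hL1 e2 (by simp)
      by_cases h12 : (B f e1) ^ 2 / B e1 e1 + (B f e2) ^ 2 / B e2 e2 = 0
      swap
      · exact step hs hB ih hperm.symm hE hf hc q1 q2 h12
      match L, hperm, hL1 with
      | [], hperm, hL1 =>
        exfalso
        have p : E.Perm (e1 :: e2 :: L2) := hperm.symm
        have h4 := expand_val hB _ (hE.perm hB p) f (by rw [← sp_perm p]; exact hf)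
        rw [List.map_cons, List.sum_cons, List.map_cons, List.sum_cons] at h4
        have h5 : (L2.map fun e => (B f e) ^ 2 / B e e).sum = 0 := by
          refine List.sum_eq_zero fun y hy => ?_
          obtain ⟨z, hz, rfl⟩ := List.mem_map.1 hy
          rw [hL2 z hz]
          simp
        rw [h5, add_zero, h12] at h4
        exact hff h4
      | e3 :: L', hperm, hL1 =>
        have q3 : B f e3 ≠ 0 := hL1 e3 (by simp)
        by_cases h23 : (B f e2) ^ 2 / B e2 e2 + (B f e3) ^ 2 / B e3 e3 = 0
        swap
        · refine step hs hB ih (R := e1 :: (L' ++ L2)) ?_ hE hf hc q2 q3 h23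
          refine hperm.symm.trans ?_
          exact (List.Perm.swap _ _ _).trans (List.Perm.cons _ (List.Perm.swap _ _ _))
        by_cases h13 : (B f e1) ^ 2 / B e1 e1 + (B f e3) ^ 2 / B e3 e3 = 0
        swap
        · refine step hs hB ih (R := e2 :: (L' ++ L2)) ?_ hE hf hc q1 q3 h13
          refine hperm.symm.trans ?_
          exact List.Perm.cons _ (List.Perm.swap _ _ _)
        exfalso
        have h4 : (2 : F) * ((B f e1) ^ 2 / B e1 e1) = 0 := by linear_combination h12 + h13 - h23
        have h5 : (B f e1) ^ 2 / B e1 e1 ≠ 0 := by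
          refine div_ne_zero (pow_ne_zero 2 q1) ?_
          exact (hE.perm hB hperm.symm).2 e1 (by simp)
        exact h5 ((mul_eq_zero.1 h4).resolve_left two_ne_zero)

/-- the orthogonal complement of the first vector -/
theorem mem_tail (hB : ∀ x y, B x y = B y x) {f : V} {E : List V} (hE : OA B (f :: E)) (g : V) :
    g ∈ sp F E ↔ g ∈ sp F (f :: E) ∧ B f g = 0 := by
  have h1 : ∀ e ∈ E, B f e = 0 := (List.pairwise_cons.1 hE.1).1
  constructor
  · intro hg
    refine ⟨mem_sp_cons.2 ⟨0, g, hg, by simp⟩, orth_sp h1 g hg⟩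
  · rintro ⟨hg, h2⟩
    obtain ⟨c, k, hk, rfl⟩ := mem_sp_cons.1 hg
    rw [map_add, map_smul, orth_sp h1 k hk, add_zero, smul_eq_mul] at h2
    have h3 : B f f ≠ 0 := hE.2 f (by simp)
    have h4 : c = 0 := (mul_eq_zero.1 h2).resolve_right h3
    rw [h4, zero_smul, zero_add]
    exact hk

/-- two orthogonal bases of one space -/
theorem inv (hs : IsSymbol h) (hB : ∀ x y, B x y = B y x) : ∀ (E' E : List V), OA B E' → OA B E →
    sp F E' = sp F E → hasse h (vl B E') = hasse h (vl B E) ∧
      ∃ s : F, s ≠ 0 ∧ (vl B E').prod = (vl B E).prod * s ^ 2 := by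
  intro E'
  induction E' with
  | nil =>
    intro E _ hE hsp
    have h1 : E = [] := by
      by_contra hne
      obtain ⟨e, he⟩ := List.exists_mem_of_ne_nil E hne
      have h2 : e ∈ sp F E := Submodule.subset_span he
      rw [← hsp] at h2
      have : sp F ([] : List V) = ⊥ := by
        unfold sp
        simp
      rw [this, Submodule.mem_bot] at h2
      exact hE.2 e he (by rw [h2]; simp)
    rw [h1]
    exact ⟨rfl, 1, one_ne_zero, by simp⟩
  | cons f E' ih =>
    intro E hE' hE hsp
    have hff : B f f ≠ 0 := hE'.2 f (by simp)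
    have hf : f ∈ sp F E := by
      rw [← hsp]
      exact Submodule.subset_span (by simp)
    obtain ⟨E1, m1, m2, m3, t, m4, m5⟩ := key hs hB hff _ E hE hf le_rfl
    have h1 : sp F E' = sp F E1 := by
      ext g
      rw [mem_tail hB hE', mem_tail hB m1, hsp, m2]
    obtain ⟨i1, s, i2, i3⟩ := ih E1 hE'.tail m1.tail h1
    have hne : (vl B E1).prod ≠ 0 := by
      intro h0
      rw [List.prod_eq_zero_iff] at h0
      exact m1.tail.vl_ne 0 h0 rfl
    constructor
    · rw [← m3, vl_cons, vl_cons, hasse, hasse, i1, h_prod hs hff _ hE'.tail.vl_ne,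
        h_prod hs hff _ m1.tail.vl_ne, i3, h_sq hs hff hne i2]
    · refine ⟨s * t, mul_ne_zero i2 m4, ?_⟩
      rw [vl_cons, List.prod_cons] at m5 ⊢
      rw [i3]
      linear_combination s ^ 2 * m5

end Vector

open scoped Matrix in
/-- **Invariance of the Hasse invariant.** -/
theorem has_ : S_HAS := by
  intro F _ _ h hs n q b hq hb ⟨T, hT⟩
  set B : (Fin n → F) →ₗ[F] (Fin n → F) →ₗ[F] F := Matrix.toBilin' (Matrix.diagonal b) with hBdef
  have hBapp : ∀ x y, B x y = ∑ i, b i * x i * y i := by
    intro x y
    rw [hBdef, Matrix.toBilin'_apply']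
    simp only [dotProduct, Matrix.mulVec_diagonal]
    refine Finset.sum_congr rfl fun i _ => ?_
    ring
  have hB : ∀ x y, B x y = B y x := by
    intro x y
    rw [hBapp, hBapp]
    refine Finset.sum_congr rfl fun i _ => ?_
    ring
  -- the two lists
  set E : List (Fin n → F) := List.ofFn fun i => Pi.single i 1 with hE
  set E' : List (Fin n → F) := List.ofFn fun i => T i with hE'
  have v1 : ∀ i j, B (Pi.single i 1) (Pi.single j 1) = if i = j then b i else 0 := by
    intro i j
    rw [hBapp]
    rw [Finset.sum_eq_single i]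
    · by_cases hij : i = j
      · subst hij
        simp
      · simp [hij, Pi.single_apply]
    · intro k _ hk
      simp [Pi.single_apply, hk]
    · simp
  have v2 : ∀ i j, B (T i) (T j) = if i = j then q i else 0 := by
    intro i j
    have h1 := congrFun (congrFun hT i) j
    rw [Matrix.diagonal_apply] at h1
    rw [← h1, hBapp, Matrix.mul_apply]
    refine Finset.sum_congr rfl fun k _ => ?_
    rw [Matrix.mul_diagonal, Matrix.transpose_apply]
    ring
  have o1 : OA B E := by
    refine ⟨?_, ?_⟩
    · rw [hE, List.pairwise_ofFn]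
      intro i j hij
      rw [v1, if_neg hij.ne]
    · intro x hx
      rw [hE, List.mem_ofFn] at hx
      obtain ⟨i, rfl⟩ := hx
      rw [v1, if_pos rfl]
      exact hb i
  have o2 : OA B E' := by
    refine ⟨?_, ?_⟩
    · rw [hE', List.pairwise_ofFn]
      intro i j hij
      rw [v2, if_neg hij.ne]
    · intro x hx
      rw [hE', List.mem_ofFn] at hx
      obtain ⟨i, rfl⟩ := hx
      rw [v2, if_pos rfl]
      exact hq i
  have s1 : sp F E = ⊤ := by
    rw [eq_top_iff]
    intro x _
    have : x = ∑ i, x i • (Pi.single i (1 : F) : Fin n → F) := by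
      ext j
      simp [Finset.sum_apply, Pi.single_apply]
    rw [this]
    refine Submodule.sum_mem _ fun i _ => Submodule.smul_mem _ _ (Submodule.subset_span ?_)
    rw [Set.mem_ofPred_eq, hE, List.mem_ofFn]
    exact ⟨i, rfl⟩
  have s2 : sp F E' = ⊤ := by
    have hdet : IsUnit T.det := by
      rw [isUnit_iff_ne_zero]
      intro h0
      have h1 := congrArg Matrix.det hT
      rw [Matrix.det_mul, Matrix.det_mul, h0, zero_mul, zero_mul, Matrix.det_diagonal] at h1
      exact Finset.prod_ne_zero_iff.2 (fun i _ => hq i) h1.symm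
    rw [eq_top_iff]
    intro x _
    have h2 : x = ∑ i, (x ᵥ* T⁻¹) i • T i := by
      have h3 : (x ᵥ* T⁻¹) ᵥ* T = x := by
        rw [Matrix.vecMul_vecMul, Matrix.nonsing_inv_mul _ hdet, Matrix.vecMul_one]
      conv_lhs => rw [← h3]
      ext j
      simp only [Matrix.vecMul, dotProduct, Finset.sum_apply, Pi.smul_apply, smul_eq_mul]
    rw [h2]
    refine Submodule.sum_mem _ fun i _ => Submodule.smul_mem _ _ (Submodule.subset_span ?_)
    rw [Set.mem_ofPred_eq, hE', List.mem_ofFn]
    exact ⟨i, rfl⟩
  have w1 : vl B E = List.ofFn b := by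
    unfold vl
    rw [hE, List.map_ofFn]
    congr 1
    ext i
    simp only [Function.comp_apply]
    rw [v1, if_pos rfl]
  have w2 : vl B E' = List.ofFn q := by
    unfold vl
    rw [hE', List.map_ofFn]
    congr 1
    ext i
    simp only [Function.comp_apply]
    rw [v2, if_pos rfl]
  have := (inv hs hB E' E o2 o1 (s2.trans s1.symm)).1
  rw [w1, w2] at this
  exact this

end Pool.Agent.N424.M4
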